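import Mathlib

set_option autoImplicit false

/-!
# FExp, module Alg: the degree two identity behind the non-linearity of free exponential groups

`x, y, d` are 2 by 2 matrices with `d^2 x^2 = l y^2`, `W = y⁻¹ d x`.  Up to the exceptional cases that
`d^2` or `W^2` is scalar, `W` lies in `K 1 + K (x y - y x)`.
-/

namespace Pool.Agent.FExp

open Matrix

variable {K : Type*} [Field K]

theorem ch (M : Matrix (Fin 2) (Fin 2) K) :
    M * M = M.trace • M - M.det • (1 : Matrix (Fin 2) (Fin 2) K) := by
  ext i j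
  fin_cases i <;> fin_cases j <;>
    simp [Matrix.mul_apply, Fin.sum_univ_two, Matrix.trace_fin_two, Matrix.det_fin_two] <;> ring

theorem ch2 (M N : Matrix (Fin 2) (Fin 2) K) :
    M * N + N * M = M.trace • N + N.trace • M +
      ((M * N).trace - M.trace * N.trace) • (1 : Matrix (Fin 2) (Fin 2) K) := by
  ext i j
  fin_cases i <;> fin_cases j <;>
    simp [Matrix.mul_apply, Fin.sum_univ_two, Matrix.trace_fin_two] <;> ring

/-- the adjugate -/
theorem mul_adj (M : Matrix (Fin 2) (Fin 2) K) :
    M * (M.trace • (1 : Matrix (Fin 2) (Fin 2) K) - M) = M.det • (1 : Matrix (Fin 2) (Fin 2) K) := by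
  rw [mul_sub, ch, mul_smul_comm, mul_one]
  abel

theorem adj_mul (M : Matrix (Fin 2) (Fin 2) K) :
    (M.trace • (1 : Matrix (Fin 2) (Fin 2) K) - M) * M = M.det • (1 : Matrix (Fin 2) (Fin 2) K) := by
  rw [sub_mul, ch, smul_mul_assoc, one_mul]
  abel

theorem cancel_left {y M N : Matrix (Fin 2) (Fin 2) K} (hy : y.det ≠ 0) (h : y * M = y * N) :
    M = N := by
  have h2 := congrArg (fun Z => (y.trace • (1 : Matrix (Fin 2) (Fin 2) K) - y) * Z) h
  simp only [← mul_assoc, adj_mul] at h2
  rw [smul_mul_assoc, smul_mul_assoc, one_mul, one_mul] at h2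
  exact smul_right_injective _ hy h2

/-- the identity of degree two -/
theorem key {x y d W : Matrix (Fin 2) (Fin 2) K} {l : K} (hx : x.det ≠ 0)
    (hy : y.det ≠ 0) (h : d * d * (x * x) = l • (y * y)) (hW : y * W = d * x) :
    (∃ c : K, d * d = c • (1 : Matrix (Fin 2) (Fin 2) K)) ∨
    (∃ c : K, W * W = c • (1 : Matrix (Fin 2) (Fin 2) K)) ∨
    ∃ α β : K, W = α • (1 : Matrix (Fin 2) (Fin 2) K) + β • (x * y - y * x) := by
  by_cases hT : d.trace = 0
  · left
    refine ⟨-d.det, ?_⟩
    rw [ch, hT, zero_smul, zero_sub, neg_smul]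
  right
  have hdet : (d.det * x.det) ^ 2 = (l * y.det) ^ 2 := by
    have h1 := congrArg Matrix.det h
    rw [det_mul, det_mul, det_mul, det_smul, det_mul, Fintype.card_fin] at h1
    linear_combination h1
  have hTd : d.trace • d = d * d + d.det • (1 : Matrix (Fin 2) (Fin 2) K) := by
    rw [ch d]
    abel
  have hp : d.trace * x.det ≠ 0 := mul_ne_zero hT hx
  -- the first term
  have h1 : x.det • (d * d * x) = y * (l • (y * (x.trace • (1 : Matrix (Fin 2) (Fin 2) K) - x))) := by
    calc x.det • (d * d * x) = d * d * x * (x.det • (1 : Matrix (Fin 2) (Fin 2) K)) := by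
          rw [mul_smul_comm, mul_one]
      _ = d * d * (x * x) * (x.trace • (1 : Matrix (Fin 2) (Fin 2) K) - x) := by
          rw [← mul_adj x]
          simp only [mul_assoc]
      _ = _ := by
          rw [h, smul_mul_assoc, mul_smul_comm, mul_assoc]
  have hgen : ∀ e : K, d.det * x.det = e * (l * y.det) →
      (d.trace * x.det) • W = l • (y * (x.trace • (1 : Matrix (Fin 2) (Fin 2) K) - x) +
        e • ((y.trace • (1 : Matrix (Fin 2) (Fin 2) K) - y) * x)) := by
    intro e he
    apply cancel_left hy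
    have h2 : (x.det * d.det) • x =
        y * ((e * l) • ((y.trace • (1 : Matrix (Fin 2) (Fin 2) K) - y) * x)) := by
      rw [mul_smul_comm, ← mul_assoc, mul_adj, smul_mul_assoc, one_mul, smul_smul]
      congr 1
      linear_combination he
    calc y * ((d.trace * x.det) • W) = x.det • ((d.trace • d) * x) := by
          rw [mul_smul_comm, hW, smul_mul_assoc, smul_smul, mul_comm]
      _ = x.det • (d * d * x) + (x.det * d.det) • x := by
          rw [hTd, add_mul, smul_add, smul_mul_assoc, one_mul, smul_smul]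
      _ = _ := by
          rw [h1, h2, ← mul_add, smul_add, smul_smul, mul_comm e l]
  rcases sq_eq_sq_iff_eq_or_eq_neg.1 hdet with he | he
  · right
    have h3 := hgen 1 (by rw [he, one_mul])
    have h4 : (d.trace * x.det) • W = l • ((x * y - y * x) +
        (x.trace * y.trace - (x * y).trace) • (1 : Matrix (Fin 2) (Fin 2) K)) := by
      rw [h3]
      congr 1
      have h5 := ch2 x y
      have h6 : x * y = x.trace • y + y.trace • x +
        ((x * y).trace - x.trace * y.trace) • (1 : Matrix (Fin 2) (Fin 2) K) - y * x := by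
        rw [← h5]
        abel
      rw [mul_sub, sub_mul, mul_smul_comm, mul_one, smul_mul_assoc, one_mul, one_smul]
      have h7 : x * y - y * x = x.trace • y + y.trace • x +
        ((x * y).trace - x.trace * y.trace) • (1 : Matrix (Fin 2) (Fin 2) K) - y * x - y * x := by
        rw [← h6]
      rw [h7, sub_smul, sub_smul]
      abel
    refine ⟨(d.trace * x.det)⁻¹ * (l * (x.trace * y.trace - (x * y).trace)),
      (d.trace * x.det)⁻¹ * l, ?_⟩
    have h8 : W = (d.trace * x.det)⁻¹ • ((d.trace * x.det) • W) := by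
      rw [smul_smul, inv_mul_cancel₀ hp, one_smul]
    rw [h8, h4, smul_add, smul_add, smul_smul, smul_smul, smul_smul, add_comm, mul_assoc]
  · left
    have h3 := hgen (-1) (by rw [he]; ring)
    have h4 : (d.trace * x.det) • W = l • (x.trace • y - y.trace • x) := by
      rw [h3]
      congr 1
      rw [mul_sub, sub_mul, mul_smul_comm, mul_one, smul_mul_assoc, one_mul, neg_smul, one_smul]
      abel
    have h5 : ((d.trace * x.det) • W).trace = 0 := by
      rw [h4, trace_smul, trace_sub, trace_smul, trace_smul]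
      simp only [smul_eq_mul]
      ring
    rw [trace_smul, smul_eq_mul] at h5
    have h6 : W.trace = 0 := (mul_eq_zero.1 h5).resolve_left hp
    refine ⟨-W.det, ?_⟩
    rw [ch, h6, zero_smul, zero_sub, neg_smul]

theorem gl2 {x y d d' W W' : Matrix (Fin 2) (Fin 2) K} {l l' : K}
    (hx : x.det ≠ 0) (hy : y.det ≠ 0) (h : d * d * (x * x) = l • (y * y))
    (h' : d' * d' * (x * x * (x * x)) = l' • (y * y)) (hW : y * W = d * x)
    (hW' : y * W' = d' * (x * x)) :
    (∃ c : K, d * d = c • (1 : Matrix (Fin 2) (Fin 2) K)) ∨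
    (∃ c : K, W * W = c • (1 : Matrix (Fin 2) (Fin 2) K)) ∨
    (∃ c : K, d' * d' = c • (1 : Matrix (Fin 2) (Fin 2) K)) ∨
    (∃ c : K, W' * W' = c • (1 : Matrix (Fin 2) (Fin 2) K)) ∨
    W * W' = W' * W := by
  rcases key hx hy h hW with h1 | h1 | ⟨α, β, h1⟩
  · exact Or.inl h1
  · exact Or.inr (Or.inl h1)
  have hx2 : (x * x).det ≠ 0 := by
    rw [det_mul]
    exact mul_ne_zero hx hx
  rcases key hx2 hy h' hW' with h2 | h2 | ⟨α', β', h2⟩
  · exact Or.inr (Or.inr (Or.inl h2))
  · exact Or.inr (Or.inr (Or.inr (Or.inl h2)))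
  right; right; right; right
  have h3 : x * x * y - y * (x * x) = x.trace • (x * y - y * x) := by
    rw [ch x, sub_mul, mul_sub, smul_mul_assoc, mul_smul_comm, smul_mul_assoc, mul_smul_comm,
      one_mul, mul_one, smul_sub]
    abel
  rw [h3] at h2
  rw [h1, h2]
  generalize x * y - y * x = N
  simp only [add_mul, mul_add, smul_mul_assoc, mul_smul_comm, one_mul, mul_one, smul_smul, smul_add]
  module

end Pool.Agent.FExp
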