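import Pool.Agent.FExp.Uni

set_option autoImplicit false

/-!
# FExp, module Cert: explicit integer matrices

In the unitriangular group of 7 by 7 matrices over a field of characteristic zero, the elements
`d, W, d1, W1` built from the matrices `Mx, My` do not commute with `Mx`, and `W, W1` do not commute.
-/

namespace Pool.Agent.FExp

open Matrix

/-- image of `x` -/
def Mx : Matrix (Fin 7) (Fin 7) ℤ :=
  !![1, 0, 0, 0, 0, 0, 0;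
     0, 1, 0, 0, 0, 0, 0;
     0, 0, 1, 2, 0, 0, 0;
     0, 0, 0, 1, 2, 0, 0;
     0, 0, 0, 0, 1, 0, 0;
     0, 0, 0, 0, 0, 1, 2;
     0, 0, 0, 0, 0, 0, 1]

/-- image of `y` -/
def My : Matrix (Fin 7) (Fin 7) ℤ :=
  !![1, 2, 0, 0, 0, 0, 0;
     0, 1, 2, 0, 0, 0, 0;
     0, 0, 1, 0, 0, 0, 0;
     0, 0, 0, 1, 0, 0, 0;
     0, 0, 0, 0, 1, 2, 0;
     0, 0, 0, 0, 0, 1, 0;
     0, 0, 0, 0, 0, 0, 1]

/-- image of `d`, `d^2 x^2 = y^2` -/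
def Md : Matrix (Fin 7) (Fin 7) ℤ :=
  !![1, 2, 0, -2, 8, 0, 2;
     0, 1, 2, -6, 14, -6, 18;
     0, 0, 1, -2, 4, -2, 6;
     0, 0, 0, 1, -2, 2, -4;
     0, 0, 0, 0, 1, 2, -6;
     0, 0, 0, 0, 0, 1, -2;
     0, 0, 0, 0, 0, 0, 1]

/-- image of `d1`, `d1^2 x^4 = y^2` -/
def Me : Matrix (Fin 7) (Fin 7) ℤ :=
  !![1, 2, 0, -4, 28, -4, 24;
     0, 1, 2, -12, 44, -16, 104;
     0, 0, 1, -4, 12, -4, 32;
     0, 0, 0, 1, -4, 4, -16;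
     0, 0, 0, 0, 1, 2, -12;
     0, 0, 0, 0, 0, 1, -4;
     0, 0, 0, 0, 0, 0, 1]

/-- image of `W = y⁻¹ d x` -/
def MW : Matrix (Fin 7) (Fin 7) ℤ :=
  !![1, 0, 0, 2, 0, 4, -2;
     0, 1, 0, -2, 2, -2, 2;
     0, 0, 1, 0, 0, -2, 2;
     0, 0, 0, 1, 0, 2, 0;
     0, 0, 0, 0, 1, 0, -2;
     0, 0, 0, 0, 0, 1, 0;
     0, 0, 0, 0, 0, 0, 1]

/-- image of `W1 = y⁻¹ d1 x^2` -/
def MV : Matrix (Fin 7) (Fin 7) ℤ :=
  !![1, 0, 0, 4, 4, 12, -8;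
     0, 1, 0, -4, 4, -8, 8;
     0, 0, 1, 0, 0, -4, 16;
     0, 0, 0, 1, 0, 4, 0;
     0, 0, 0, 0, 1, 0, -4;
     0, 0, 0, 0, 0, 1, 0;
     0, 0, 0, 0, 0, 0, 1]

theorem un_int : (∀ i j : Fin 7, (j : ℕ) < i + 1 → (Mx - 1) i j = 0) ∧
    (∀ i j : Fin 7, (j : ℕ) < i + 1 → (My - 1) i j = 0) ∧
    (∀ i j : Fin 7, (j : ℕ) < i + 1 → (Md - 1) i j = 0) ∧
    (∀ i j : Fin 7, (j : ℕ) < i + 1 → (Me - 1) i j = 0) ∧
    (∀ i j : Fin 7, (j : ℕ) < i + 1 → (MW - 1) i j = 0) ∧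
    (∀ i j : Fin 7, (j : ℕ) < i + 1 → (MV - 1) i j = 0) := by
  decide +kernel

theorem rel_d : Md * Md * (Mx * Mx) = My * My := by decide +kernel

theorem rel_e : Me * Me * (Mx * Mx * (Mx * Mx)) = My * My := by decide +kernel

theorem rel_W : My * MW = Md * Mx := by decide +kernel

theorem rel_V : My * MV = Me * (Mx * Mx) := by decide +kernel

theorem ne_d : Md * Md * Mx ≠ Mx * (Md * Md) := by decide +kernel

theorem ne_e : Me * Me * Mx ≠ Mx * (Me * Me) := by decide +kernel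

theorem ne_W : MW * MW * Mx ≠ Mx * (MW * MW) := by decide +kernel

theorem ne_V : MV * MV * Mx ≠ Mx * (MV * MV) := by decide +kernel

theorem ne_WV : MW * MV ≠ MV * MW := by decide +kernel

end Pool.Agent.FExp
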