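import Pool.Agent.FExp.Alg
import Pool.Agent.FExp.Cert

set_option autoImplicit false

/-!
# FExp, module Final: the two halves put together
-/

namespace Pool.Agent.FExp

open Matrix

/-- a commutative ring with torsion-free additive group maps to a field of characteristic zero -/
theorem exists_field {A : Type*} [CommRing A] [Nontrivial A]
    (htf : ∀ (n : ℕ) (a : A), n ≠ 0 → n • a = 0 → a = 0) :
    ∃ (p : Ideal A), p.IsPrime ∧ ∀ n : ℕ, ((n : ℕ) : A) ∈ p → n = 0 := by
  let S : Submonoid A :=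
    { carrier := {a | ∃ n : ℕ, n ≠ 0 ∧ a = n}
      one_mem' := ⟨1, one_ne_zero, by simp⟩
      mul_mem' := by
        rintro _ _ ⟨m, hm, rfl⟩ ⟨n, hn, rfl⟩
        exact ⟨m * n, mul_ne_zero hm hn, by push_cast; rfl⟩ }
  have hdisj : Disjoint ((⊥ : Ideal A) : Set A) (S : Set A) := by
    rw [Set.disjoint_left]
    rintro a ha ⟨n, hn, rfl⟩
    have h0 : (n : A) = 0 := ha
    have h1 : n • (1 : A) = 0 := by rw [nsmul_eq_mul, mul_one, h0]
    exact one_ne_zero (htf n 1 hn h1)
  obtain ⟨p, hp, _, hpS⟩ := Ideal.exists_le_prime_disjoint ⊥ S hdisj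
  refine ⟨p, hp, fun n hn => ?_⟩
  by_contra h
  exact Set.disjoint_left.1 hpS hn ⟨n, h, rfl⟩

section Group

variable {k : Type*} [Field k] [CharZero k]

/-- integer matrices as matrices over `k` -/
noncomputable def cst (k : Type*) [Field k] : Matrix (Fin 7) (Fin 7) ℤ →+* Matrix (Fin 7) (Fin 7) k :=
  (Int.castRingHom k).mapMatrix

theorem cst_inj : Function.Injective (cst k) := by
  intro M N h
  ext i j
  have := congrFun (congrFun h i) j
  simpa [cst] using this

omit [CharZero k] in
theorem cst_un {M : Matrix (Fin 7) (Fin 7) ℤ}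
    (h : ∀ i j : Fin 7, (j : ℕ) < i + 1 → (M - 1) i j = 0) : Un (cst k M) := by
  intro i j hij
  have h1 : cst k M - 1 = cst k (M - 1) := by rw [map_sub, map_one]
  rw [h1]
  change ((M - 1) i j : k) = 0
  rw [h i j hij, Int.cast_zero]

/-- the certificate in the unitriangular group -/
theorem cert (u v d e W V : UT 7 k) (hu : mat u = cst k Mx) (hv : mat v = cst k My)
    (hd : d * d * (u * u) = v * v) (he : e * e * (u * u * (u * u)) = v * v)
    (hW : v * W = d * u) (hV : v * V = e * (u * u)) :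
    ¬ Commute (d * d) u ∧ ¬ Commute (W * W) u ∧ ¬ Commute (e * e) u ∧
      ¬ Commute (V * V) u ∧ ¬ Commute W V := by
  obtain ⟨-, -, hUd, hUe, -, -⟩ := un_int
  have hd' : mat d = cst k Md := by
    have h1 : d = toUT (cst k Md) (cst_un hUd) := by
      apply sq_inj
      have h2 : toUT (cst k Md) (cst_un hUd) * toUT (cst k Md) (cst_un hUd) * (u * u) = v * v := by
        apply mat_injective
        simp only [mat_mul, mat_toUT, hu, hv, ← map_mul, rel_d]
      exact mul_right_cancel (hd.trans h2.symm)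
    rw [h1, mat_toUT]
  have he' : mat e = cst k Me := by
    have h1 : e = toUT (cst k Me) (cst_un hUe) := by
      apply sq_inj
      have h2 : toUT (cst k Me) (cst_un hUe) * toUT (cst k Me) (cst_un hUe) *
          (u * u * (u * u)) = v * v := by
        apply mat_injective
        simp only [mat_mul, mat_toUT, hu, hv, ← map_mul, rel_e]
      exact mul_right_cancel (he.trans h2.symm)
    rw [h1, mat_toUT]
  obtain ⟨-, -, -, -, hUW, hUV⟩ := un_int
  have hW' : mat W = cst k MW := by
    have h1 : W = toUT (cst k MW) (cst_un hUW) := by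
      have h2 : v * toUT (cst k MW) (cst_un hUW) = d * u := by
        apply mat_injective
        simp only [mat_mul, mat_toUT, hu, hv, hd', ← map_mul, rel_W]
      exact mul_left_cancel (hW.trans h2.symm)
    rw [h1, mat_toUT]
  have hV' : mat V = cst k MV := by
    have h1 : V = toUT (cst k MV) (cst_un hUV) := by
      have h2 : v * toUT (cst k MV) (cst_un hUV) = e * (u * u) := by
        apply mat_injective
        simp only [mat_mul, mat_toUT, hu, hv, he', ← map_mul, rel_V]
      exact mul_left_cancel (hV.trans h2.symm)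
    rw [h1, mat_toUT]
  have aux : ∀ {p q : UT 7 k} {P Q : Matrix (Fin 7) (Fin 7) ℤ}, mat p = cst k P →
      mat q = cst k Q → P * Q ≠ Q * P → ¬ Commute p q := by
    intro p q P Q hp hq hne hc
    apply hne
    apply cst_inj (k := k)
    rw [map_mul, map_mul, ← hp, ← hq, ← mat_mul, ← mat_mul, hc.eq]
  refine ⟨aux (P := Md * Md) (Q := Mx) ?_ hu ne_d, aux (P := MW * MW) (Q := Mx) ?_ hu ne_W,
    aux (P := Me * Me) (Q := Mx) ?_ hu ne_e, aux (P := MV * MV) (Q := Mx) ?_ hu ne_V,
    aux hW' hV' ne_WV⟩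
  · rw [mat_mul, hd', map_mul]
  · rw [mat_mul, hW', map_mul]
  · rw [mat_mul, he', map_mul]
  · rw [mat_mul, hV', map_mul]

end Group

section GLtwo

variable {K : Type*} [Field K]

theorem scalar_comm {g : GL (Fin 2) K} {c : K}
    (h : (g : Matrix (Fin 2) (Fin 2) K) = c • (1 : Matrix (Fin 2) (Fin 2) K)) (u : GL (Fin 2) K) :
    Commute g u := by
  apply Units.ext
  rw [Units.val_mul, Units.val_mul, h, smul_mul_assoc, mul_smul_comm, one_mul, mul_one]

/-- the degree two statement for invertible matrices up to scalars -/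
theorem gl2_group (x y d e : GL (Fin 2) K) {l m : K}
    (hd : ((d * d * (x * x) : GL (Fin 2) K) : Matrix (Fin 2) (Fin 2) K) =
      l • ((y * y : GL (Fin 2) K) : Matrix (Fin 2) (Fin 2) K))
    (he : ((e * e * (x * x * (x * x)) : GL (Fin 2) K) : Matrix (Fin 2) (Fin 2) K) =
      m • ((y * y : GL (Fin 2) K) : Matrix (Fin 2) (Fin 2) K)) :
    (∀ u, Commute (d * d) u) ∨
    (∀ u, Commute ((y⁻¹ * d * x) * (y⁻¹ * d * x)) u) ∨
    (∀ u, Commute (e * e) u) ∨
    (∀ u, Commute ((y⁻¹ * e * (x * x)) * (y⁻¹ * e * (x * x))) u) ∨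
    Commute (y⁻¹ * d * x) (y⁻¹ * e * (x * x)) := by
  have hx : (x : Matrix (Fin 2) (Fin 2) K).det ≠ 0 :=
    ((Matrix.isUnit_iff_isUnit_det _).1 x.isUnit).ne_zero
  have hy : (y : Matrix (Fin 2) (Fin 2) K).det ≠ 0 :=
    ((Matrix.isUnit_iff_isUnit_det _).1 y.isUnit).ne_zero
  have hW : (y : Matrix (Fin 2) (Fin 2) K) * ((y⁻¹ * d * x : GL (Fin 2) K) :
      Matrix (Fin 2) (Fin 2) K) = d * x := by
    rw [← Units.val_mul, ← Units.val_mul]
    congr 1
    group
  have hV : (y : Matrix (Fin 2) (Fin 2) K) * ((y⁻¹ * e * (x * x) : GL (Fin 2) K) :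
      Matrix (Fin 2) (Fin 2) K) = e * (x * x) := by
    rw [← Units.val_mul, ← Units.val_mul, ← Units.val_mul]
    congr 1
    group
  have h := gl2 (l := l) (l' := m) hx hy (by simpa only [Units.val_mul] using hd)
    (by simpa only [Units.val_mul] using he) hW hV
  rcases h with ⟨c, h⟩ | ⟨c, h⟩ | ⟨c, h⟩ | ⟨c, h⟩ | h
  · exact Or.inl fun u => scalar_comm (c := c) (by rw [Units.val_mul, h]) u
  · exact Or.inr (Or.inl fun u => scalar_comm (c := c) (by rw [Units.val_mul, h]) u)
  · exact Or.inr (Or.inr (Or.inl fun u => scalar_comm (c := c) (by rw [Units.val_mul, h]) u))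
  · exact Or.inr (Or.inr (Or.inr (Or.inl fun u =>
      scalar_comm (c := c) (by rw [Units.val_mul, h]) u)))
  · refine Or.inr (Or.inr (Or.inr (Or.inr ?_)))
    apply Units.ext
    exact h

open Matrix.ProjGenLinGroup in
/-- no faithful representation in degree two -/
theorem core {G : Type*} [Group G] (x y d e : G) (hd : d * d * (x * x) = y * y)
    (he : e * e * (x * x * (x * x)) = y * y) (h1 : ¬ Commute (d * d) x)
    (h2 : ¬ Commute ((y⁻¹ * d * x) * (y⁻¹ * d * x)) x) (h3 : ¬ Commute (e * e) x)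
    (h4 : ¬ Commute ((y⁻¹ * e * (x * x)) * (y⁻¹ * e * (x * x))) x)
    (h5 : ¬ Commute (y⁻¹ * d * x) (y⁻¹ * e * (x * x))) :
    (∀ φ : G →* GL (Fin 2) K, ¬ Function.Injective φ) ∧
      (∀ φ : G →* ProjGenLinGroup (Fin 2) K, ¬ Function.Injective φ) := by
  constructor
  · intro φ hφ
    have hc : ∀ {p q : G}, Commute (φ p) (φ q) → Commute p q := by
      intro p q h
      apply hφ
      rw [map_mul, map_mul, h.eq]
    have h := gl2_group (φ x) (φ y) (φ d) (φ e) (l := 1) (m := 1)
      (by rw [one_smul, ← map_mul, ← map_mul, ← map_mul, hd, map_mul])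
      (by rw [one_smul, ← map_mul, ← map_mul, ← map_mul, ← map_mul, he, map_mul])
    rcases h with h | h | h | h | h
    · exact h1 (hc (by rw [map_mul]; exact h _))
    · exact h2 (hc (by simpa only [map_mul, map_inv] using h (φ x)))
    · exact h3 (hc (by rw [map_mul]; exact h _))
    · exact h4 (hc (by simpa only [map_mul, map_inv] using h (φ x)))
    · exact h5 (hc (by simpa only [map_mul, map_inv] using h))
  · intro φ hφ
    obtain ⟨X, hX⟩ := mk_surjective (φ x)
    obtain ⟨Y, hY⟩ := mk_surjective (φ y)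
    obtain ⟨D, hD⟩ := mk_surjective (φ d)
    obtain ⟨E, hE⟩ := mk_surjective (φ e)
    have hrel : ∀ {M N : GL (Fin 2) K}, mk M = mk N → ∃ l : K,
        (N : Matrix (Fin 2) (Fin 2) K) = l • (M : Matrix (Fin 2) (Fin 2) K) := by
      intro M N h
      obtain ⟨u, hu⟩ := mk_eq_mk_iff.1 h
      refine ⟨u, ?_⟩
      rw [← hu, Units.val_mul]
      ext i j
      simp [GeneralLinearGroup.coe_scalar, Matrix.mul_apply, Matrix.scalar_apply,
        Matrix.diagonal_apply, mul_comm]
    have e1 : mk (Y * Y) = mk (D * D * (X * X)) := by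
      simp only [map_mul, hX, hY, hD]
      simp only [← map_mul, hd]
    have e2 : mk (Y * Y) = mk (E * E * (X * X * (X * X))) := by
      simp only [map_mul, hX, hY, hE]
      simp only [← map_mul, he]
    obtain ⟨l, hl⟩ := hrel e1
    obtain ⟨m, hm⟩ := hrel e2
    have hcen : ∀ {M : GL (Fin 2) K} {g : G}, mk M = φ g → (∀ u, Commute M u) →
        Commute g x := by
      intro M g hM h
      have hz : mk M = 1 := mk_eq_one.2 (Subgroup.mem_center_iff.2 fun u => ((h u).eq).symm)
      have : g = 1 := hφ (by rw [← hM, hz, map_one])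
      rw [this]
      exact Commute.one_left x
    rcases gl2_group X Y D E hl hm with h | h | h | h | h
    · exact h1 (hcen (by rw [map_mul, hD, map_mul]) h)
    · exact h2 (hcen (by simp only [map_mul, map_inv, hD, hX, hY]) h)
    · exact h3 (hcen (by rw [map_mul, hE, map_mul]) h)
    · exact h4 (hcen (by simp only [map_mul, map_inv, hE, hX, hY]) h)
    · apply h5
      apply hφ
      have h' := congrArg mk h.eq
      simpa only [map_mul, map_inv, hD, hE, hX, hY] using h'

end GLtwo

end Pool.Agent.FExp
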