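import Mathlib

set_option autoImplicit false

/-!
# FExp, module Uni: exponents in a field of characteristic zero on unitriangular matrices

`Pm M α = ∑ m < n, choose(α, m) (M - 1)^m` for a unitriangular `n` by `n` matrix `M`.
-/

namespace Pool.Agent.FExp

open Matrix Polynomial Finset

variable {k : Type*} [Field k] {n : ℕ}

/-- `M i j = 0` for `j < i + s` -/
def Up (s : ℕ) (M : Matrix (Fin n) (Fin n) k) : Prop :=
  ∀ i j : Fin n, (j : ℕ) < i + s → M i j = 0

theorem Up.mul {s t : ℕ} {M N : Matrix (Fin n) (Fin n) k} (hM : Up s M) (hN : Up t N) :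
    Up (s + t) (M * N) := by
  intro i j hij
  rw [Matrix.mul_apply]
  apply Finset.sum_eq_zero
  intro l _
  by_cases h : (l : ℕ) < i + s
  · rw [hM i l h, zero_mul]
  · rw [hN l j (by omega), mul_zero]

theorem Up.add {s : ℕ} {M N : Matrix (Fin n) (Fin n) k} (hM : Up s M) (hN : Up s N) :
    Up s (M + N) := by
  intro i j hij
  rw [Matrix.add_apply, hM i j hij, hN i j hij, add_zero]

theorem up_one : Up 0 (1 : Matrix (Fin n) (Fin n) k) := by
  intro i j hij
  apply Matrix.one_apply_ne
  intro h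
  subst h
  omega

theorem Up.pow {M : Matrix (Fin n) (Fin n) k} (hM : Up 1 M) (m : ℕ) : Up m (M ^ m) := by
  induction m with
  | zero => rw [pow_zero]; exact up_one
  | succ m ih => rw [pow_succ]; exact ih.mul hM

theorem Up.pow_eq_zero {M : Matrix (Fin n) (Fin n) k} (hM : Up 1 M) {m : ℕ} (hm : n ≤ m) :
    M ^ m = 0 := by
  ext i j
  exact hM.pow m i j (by omega)

/-- unitriangular matrices -/
def Un (M : Matrix (Fin n) (Fin n) k) : Prop := Up 1 (M - 1)

theorem Un.mul {M N : Matrix (Fin n) (Fin n) k} (hM : Un M) (hN : Un N) : Un (M * N) := by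
  have e : M * N - 1 = (M - 1) * (N - 1) + (M - 1) + (N - 1) := by
    rw [sub_mul, mul_sub, mul_sub, mul_one, one_mul, one_mul]
    abel
  unfold Un
  rw [e]
  refine Up.add (Up.add ?_ hM) hN
  intro i j hij
  exact (Up.mul (s := 1) (t := 1) hM hN) i j (by omega)

theorem Un.one : Un (1 : Matrix (Fin n) (Fin n) k) := by
  intro i j _
  simp

theorem Un.pow {M : Matrix (Fin n) (Fin n) k} (hM : Un M) (a : ℕ) : Un (M ^ a) := by
  induction a with
  | zero => rw [pow_zero]; exact Un.one
  | succ m ih => rw [pow_succ]; exact ih.mul hM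

/-- the binomial coefficient polynomial -/
noncomputable def cP (k : Type*) [Field k] (m : ℕ) : k[X] :=
  C ((m.factorial : k)⁻¹) * descPochhammer k m

theorem cP_eval_nat [CharZero k] (m a : ℕ) : (cP k m).eval (a : k) = (a.choose m : k) := by
  rw [cP, eval_mul, eval_C, descPochhammer_eval_eq_descFactorial,
    Nat.descFactorial_eq_factorial_mul_choose, Nat.cast_mul, ← mul_assoc, inv_mul_cancel₀, one_mul]
  exact_mod_cast m.factorial_ne_zero

/-- powers with exponents in `k` -/
noncomputable def Pm (M : Matrix (Fin n) (Fin n) k) (α : k) : Matrix (Fin n) (Fin n) k :=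
  ∑ m ∈ range n, (cP k m).eval α • (M - 1) ^ m

theorem Pm_nat [CharZero k] {M : Matrix (Fin n) (Fin n) k} (hM : Un M) (a : ℕ) :
    Pm M (a : k) = M ^ a := by
  have h1 : M ^ a = ∑ m ∈ range (a + 1), ((a.choose m : ℕ) : k) • (M - 1) ^ m := by
    have e : M = (M - 1) + 1 := by abel
    conv_lhs => rw [e]
    rw [(Commute.one_right (M - 1)).add_pow]
    apply Finset.sum_congr rfl
    intro m _
    rw [one_pow, mul_one, ← nsmul_eq_mul', Nat.cast_smul_eq_nsmul]
  have h2 : ∑ m ∈ range (a + 1), ((a.choose m : ℕ) : k) • (M - 1) ^ m =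
      ∑ m ∈ range (max n (a + 1)), ((a.choose m : ℕ) : k) • (M - 1) ^ m := by
    apply Finset.sum_subset (Finset.range_mono (le_max_right _ _))
    intro m _ hm
    rw [Finset.mem_range, not_lt] at hm
    rw [Nat.choose_eq_zero_of_lt (by omega), Nat.cast_zero, zero_smul]
  have h3 : Pm M (a : k) =
      ∑ m ∈ range (max n (a + 1)), ((a.choose m : ℕ) : k) • (M - 1) ^ m := by
    unfold Pm
    rw [← Finset.sum_subset (Finset.range_mono (le_max_left n (a + 1)))]
    · apply Finset.sum_congr rfl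
      intro m _
      rw [cP_eval_nat]
    · intro m _ hm
      rw [Finset.mem_range, not_lt] at hm
      rw [Up.pow_eq_zero hM hm, smul_zero]
  rw [h1, h2, h3]

/-- matrix functions with polynomial entries -/
def PolyFn (f : k → Matrix (Fin n) (Fin n) k) : Prop :=
  ∃ Q : Matrix (Fin n) (Fin n) k[X], ∀ α, f α = (evalRingHom α).mapMatrix Q

theorem PolyFn.const (M : Matrix (Fin n) (Fin n) k) : PolyFn fun _ => M := by
  refine ⟨M.map C, fun α => ?_⟩
  ext i j
  simp

theorem PolyFn.mul {f g : k → Matrix (Fin n) (Fin n) k} (hf : PolyFn f) (hg : PolyFn g) :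
    PolyFn fun α => f α * g α := by
  obtain ⟨P, hP⟩ := hf
  obtain ⟨Q, hQ⟩ := hg
  exact ⟨P * Q, fun α => by rw [map_mul, ← hP, ← hQ]⟩

theorem PolyFn.add {f g : k → Matrix (Fin n) (Fin n) k} (hf : PolyFn f) (hg : PolyFn g) :
    PolyFn fun α => f α + g α := by
  obtain ⟨P, hP⟩ := hf
  obtain ⟨Q, hQ⟩ := hg
  exact ⟨P + Q, fun α => by rw [map_add, ← hP, ← hQ]⟩

theorem PolyFn.sum {ι : Type*} (s : Finset ι) {f : ι → k → Matrix (Fin n) (Fin n) k}
    (hf : ∀ i ∈ s, PolyFn (f i)) : PolyFn fun α => ∑ i ∈ s, f i α := by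
  classical
  induction s using Finset.induction_on with
  | empty =>
    simp only [Finset.sum_empty]
    exact PolyFn.const 0
  | insert a s ha ih =>
    simp only [Finset.sum_insert ha]
    exact (hf a (Finset.mem_insert_self a s)).add
      (ih fun i hi => hf i (Finset.mem_insert_of_mem hi))

theorem PolyFn.smul (p : k[X]) (M : Matrix (Fin n) (Fin n) k) :
    PolyFn fun α => p.eval α • M := by
  refine ⟨p • M.map C, fun α => ?_⟩
  ext i j
  simp

theorem PolyFn.comp {f : k → Matrix (Fin n) (Fin n) k} (hf : PolyFn f) (q : k[X]) :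
    PolyFn fun α => f (q.eval α) := by
  obtain ⟨P, hP⟩ := hf
  refine ⟨P.map fun p => p.comp q, fun α => ?_⟩
  change f (q.eval α) = _
  rw [hP]
  ext i j
  simp [eval_comp]

theorem PolyFn.entry [CharZero k] {f g : k → Matrix (Fin n) (Fin n) k} (hf : PolyFn f)
    (hg : PolyFn g) (i j : Fin n) (h : ∀ a : ℕ, f (a : k) i j = g (a : k) i j) (α : k) :
    f α i j = g α i j := by
  obtain ⟨P, hP⟩ := hf
  obtain ⟨Q, hQ⟩ := hg
  have e : P i j = Q i j := by
    apply Polynomial.eq_of_infinite_eval_eq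
    refine (Set.infinite_range_of_injective (Nat.cast_injective (R := k))).mono ?_
    rintro _ ⟨a, rfl⟩
    have := h a
    rw [hP, hQ] at this
    simpa using this
  rw [hP, hQ]
  simp [e]

theorem PolyFn.ext [CharZero k] {f g : k → Matrix (Fin n) (Fin n) k} (hf : PolyFn f)
    (hg : PolyFn g) (h : ∀ a : ℕ, f (a : k) = g (a : k)) (α : k) : f α = g α := by
  ext i j
  exact hf.entry hg i j (fun a => by rw [h a]) α

theorem PolyFn.Pm (M : Matrix (Fin n) (Fin n) k) : PolyFn (Pm M) :=
  PolyFn.sum _ fun m _ => PolyFn.smul (cP k m) ((M - 1) ^ m)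

variable [CharZero k]

theorem Pm_add {M : Matrix (Fin n) (Fin n) k} (hM : Un M) (α β : k) :
    Pm M (α + β) = Pm M α * Pm M β := by
  have h1 : ∀ (b : ℕ) (α : k), Pm M (α + b) = Pm M α * Pm M b := by
    intro b α
    have hl : PolyFn fun α : k => Pm M (α + b) := by
      have := (PolyFn.Pm M).comp (X + C (b : k))
      simpa using this
    refine PolyFn.ext hl ((PolyFn.Pm M).mul (PolyFn.const (Pm M (b : k)))) ?_ α
    intro a
    rw [← Nat.cast_add, Pm_nat hM, Pm_nat hM, Pm_nat hM, pow_add]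
  have hl : PolyFn fun β : k => Pm M (α + β) := by
    have := (PolyFn.Pm M).comp (C α + X)
    simpa using this
  exact PolyFn.ext hl ((PolyFn.const (Pm M α)).mul (PolyFn.Pm M)) (fun b => h1 b α) β

theorem Pm_zero {M : Matrix (Fin n) (Fin n) k} (hM : Un M) : Pm M 0 = 1 := by
  have := Pm_nat hM 0
  rwa [Nat.cast_zero, pow_zero] at this

theorem Pm_one {M : Matrix (Fin n) (Fin n) k} (hM : Un M) : Pm M 1 = M := by
  have := Pm_nat hM 1
  rwa [Nat.cast_one, pow_one] at this

theorem Un.Pm {M : Matrix (Fin n) (Fin n) k} (hM : Un M) (α : k) : Un (Pm M α) := by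
  intro i j hij
  have h := (PolyFn.Pm M).entry (PolyFn.const (1 : Matrix (Fin n) (Fin n) k)) i j
    (fun a => by
      rw [Pm_nat hM]
      have := hM.pow a i j hij
      rwa [Matrix.sub_apply, sub_eq_zero] at this) α
  rw [Matrix.sub_apply, h, sub_self]

theorem Pm_mul {M : Matrix (Fin n) (Fin n) k} (hM : Un M) (α β : k) :
    Pm M (α * β) = Pm (Pm M α) β := by
  have h1 : ∀ b : ℕ, Pm M (α * b) = Pm (Pm M α) (b : k) := by
    intro b
    rw [Pm_nat (hM.Pm α)]
    induction b with
    | zero => rw [Nat.cast_zero, mul_zero, Pm_zero hM, pow_zero]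
    | succ b ih => rw [Nat.cast_succ, mul_add, mul_one, Pm_add hM, ih, pow_succ]
  have hl : PolyFn fun β : k => Pm M (α * β) := by
    have := (PolyFn.Pm M).comp (C α * X)
    simpa using this
  exact PolyFn.ext hl (PolyFn.Pm _) h1 β

theorem Pm_conj {M U V : Matrix (Fin n) (Fin n) k} (hM : Un M) (hU : Un U) (hV : Un V)
    (hUV : U * V = 1) (hVU : V * U = 1) (α : k) : Pm (V * M * U) α = V * Pm M α * U := by
  refine PolyFn.ext (PolyFn.Pm _)
    (((PolyFn.const V).mul (PolyFn.Pm M)).mul (PolyFn.const U)) ?_ α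
  intro a
  rw [Pm_nat ((hV.mul hM).mul hU), Pm_nat hM]
  induction a with
  | zero => rw [pow_zero, pow_zero, mul_one, hVU]
  | succ a ih =>
    rw [pow_succ, ih, pow_succ]
    calc V * M ^ a * U * (V * M * U) = V * M ^ a * (U * V) * M * U := by
          simp only [mul_assoc]
      _ = _ := by
          rw [hUV, mul_one]
          simp only [mul_assoc]

theorem Pm_comm {M N : Matrix (Fin n) (Fin n) k} (hM : Un M) (hN : Un N) (h : M * N = N * M)
    (α : k) : Pm (M * N) α = Pm M α * Pm N α := by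
  refine PolyFn.ext (PolyFn.Pm _) ((PolyFn.Pm M).mul (PolyFn.Pm N)) ?_ α
  intro a
  rw [Pm_nat (hM.mul hN), Pm_nat hM, Pm_nat hN]
  exact Commute.mul_pow h a

/-- the unitriangular group -/
noncomputable def UT (n : ℕ) (k : Type*) [Field k] [CharZero k] :
    Subgroup (Matrix (Fin n) (Fin n) k)ˣ where
  carrier := {u | Un (u : Matrix (Fin n) (Fin n) k)}
  mul_mem' := fun {a b} ha hb => by
    change Un ((a * b : (Matrix (Fin n) (Fin n) k)ˣ) : Matrix (Fin n) (Fin n) k)
    rw [Units.val_mul]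
    exact Un.mul ha hb
  one_mem' := Un.one
  inv_mem' := fun {a} ha => by
    have h1 : (a : Matrix (Fin n) (Fin n) k) * Pm (a : Matrix (Fin n) (Fin n) k) (-1) = 1 := by
      have h := Pm_add (M := (a : Matrix (Fin n) (Fin n) k)) ha 1 (-1)
      rw [add_neg_cancel, Pm_zero ha, Pm_one ha] at h
      exact h.symm
    have h2 : ((a⁻¹ : (Matrix (Fin n) (Fin n) k)ˣ) : Matrix (Fin n) (Fin n) k) =
        Pm (a : Matrix (Fin n) (Fin n) k) (-1) := (Units.inv_eq_of_mul_eq_one_right h1)
    change Un ((a⁻¹ : (Matrix (Fin n) (Fin n) k)ˣ) : Matrix (Fin n) (Fin n) k)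
    rw [h2]
    exact Un.Pm ha (-1)

/-- elements from matrices -/
noncomputable def toUT (M : Matrix (Fin n) (Fin n) k) (hM : Un M) : UT n k :=
  ⟨⟨M, Pm M (-1), by
    have h := Pm_add hM 1 (-1)
    rw [add_neg_cancel, Pm_zero hM, Pm_one hM] at h
    exact h.symm, by
    have h := Pm_add hM (-1) 1
    rw [neg_add_cancel, Pm_zero hM, Pm_one hM] at h
    exact h.symm⟩, hM⟩

/-- the matrix of an element -/
def mat (u : UT n k) : Matrix (Fin n) (Fin n) k := (u.1 : Matrix (Fin n) (Fin n) k)

theorem mat_toUT (M : Matrix (Fin n) (Fin n) k) (hM : Un M) : mat (toUT M hM) = M := rfl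

theorem mat_mul (u v : UT n k) : mat (u * v) = mat u * mat v := rfl

theorem mat_one : mat (1 : UT n k) = 1 := rfl

theorem mat_un (u : UT n k) : Un (mat u) := u.2

theorem mat_injective {u v : UT n k} (h : mat u = mat v) : u = v :=
  Subtype.ext (Units.ext h)

/-- the power operation -/
noncomputable def pw (u : UT n k) (α : k) : UT n k := toUT (Pm (mat u) α) ((mat_un u).Pm α)

theorem mat_pw (u : UT n k) (α : k) : mat (pw u α) = Pm (mat u) α := rfl

theorem pw_one (u : UT n k) : pw u 1 = u := mat_injective (by rw [mat_pw, Pm_one (mat_un u)])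

theorem pw_zero (u : UT n k) : pw u 0 = 1 :=
  mat_injective (by rw [mat_pw, Pm_zero (mat_un u), mat_one])

theorem pw_add (u : UT n k) (α β : k) : pw u (α + β) = pw u α * pw u β :=
  mat_injective (by rw [mat_mul, mat_pw, mat_pw, mat_pw, Pm_add (mat_un u)])

theorem pw_mul (u : UT n k) (α β : k) : pw u (α * β) = pw (pw u α) β :=
  mat_injective (by rw [mat_pw, mat_pw, mat_pw, Pm_mul (mat_un u)])

theorem one_pw (α : k) : pw (1 : UT n k) α = 1 := by
  apply mat_injective
  have h : ∀ α : k, Pm (1 : Matrix (Fin n) (Fin n) k) α = 1 := fun α =>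
    PolyFn.ext (PolyFn.Pm _) (PolyFn.const 1) (fun a => by rw [Pm_nat Un.one, one_pow]) α
  rw [mat_pw, mat_one, h]

theorem conj_pw (u v : UT n k) (α : k) : pw (v⁻¹ * u * v) α = v⁻¹ * pw u α * v := by
  apply mat_injective
  rw [mat_pw, mat_mul, mat_mul, mat_mul, mat_mul, mat_pw]
  refine Pm_conj (mat_un u) (mat_un v) (mat_un v⁻¹) ?_ ?_ α
  · rw [← mat_mul, mul_inv_cancel, mat_one]
  · rw [← mat_mul, inv_mul_cancel, mat_one]

theorem mul_pw (u v : UT n k) (h : u * v = v * u) (α : k) :
    pw (u * v) α = pw u α * pw v α := by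
  apply mat_injective
  rw [mat_pw, mat_mul, mat_mul, mat_pw, mat_pw]
  refine Pm_comm (mat_un u) (mat_un v) ?_ α
  rw [← mat_mul, h, mat_mul]

/-- uniqueness of square roots -/
theorem sq_inj {u v : UT n k} (h : u * u = v * v) : u = v := by
  have h1 : ∀ w : UT n k, pw (w * w) (2⁻¹) = w := by
    intro w
    have h2 : w * w = pw w 2 := by
      have := pw_add w 1 1
      rw [pw_one, one_add_one_eq_two] at this
      exact this.symm
    rw [h2, ← pw_mul, mul_inv_cancel₀ (two_ne_zero), pw_one]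
  rw [← h1 u, h, h1 v]

end Pool.Agent.FExp
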